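import Pool.Agent.W2helper84.TN.Stm
import Mathlib.LinearAlgebra.JordanChevalley
import Mathlib.LinearAlgebra.Semisimple

/-!
# Piece ADS of project TN

If `x ↦ A x - x A` is semisimple on the alternating `6 × 6` matrices, `A` symmetric, then `A` is
semisimple.
-/

set_option autoImplicit false

namespace Pool.Agent.W2helper28.TN

open Pool.Agent.W2helper84.TN Polynomial

attribute [local instance 100] LieRing.ofAssociativeRing

/-- `aeval` and an intertwining linear map -/
theorem aeval_intertwine {K V W : Type*} [Field K] [AddCommGroup V] [Module K V] [AddCommGroup W]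
    [Module K W] (i : V →ₗ[K] W) (f : Module.End K V) (g : Module.End K W)
    (h : ∀ x, i (f x) = g (i x)) (p : K[X]) (x : V) : i (aeval f p x) = aeval g p (i x) := by
  have hp : ∀ (k : ℕ) (x : V), i ((f ^ k) x) = (g ^ k) (i x) := by
    intro k
    induction k with
    | zero => intro x; simp
    | succ k ih => intro x; rw [pow_succ, pow_succ, Module.End.mul_apply, Module.End.mul_apply, ih, h]
  rw [aeval_eq_sum_range, aeval_eq_sum_range]
  simp only [LinearMap.sum_apply, LinearMap.smul_apply, map_sum, map_smul, hp]

/-- an injective intertwining map reflects semisimplicity -/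
theorem semisimple_of_intertwine {K V W : Type*} [Field K] [AddCommGroup V] [Module K V]
    [AddCommGroup W] [Module K W] [FiniteDimensional K W] (i : V →ₗ[K] W)
    (hi : Function.Injective i) (f : Module.End K V) (g : Module.End K W)
    (h : ∀ x, i (f x) = g (i x)) (hg : g.IsSemisimple) : f.IsSemisimple := by
  refine Module.End.isSemisimple_of_squarefree_aeval_eq_zero hg.minpoly_squarefree ?_
  ext x
  apply hi
  rw [aeval_intertwine i f g h, minpoly.aeval]
  simp

variable (K : Type*) [Field K]

/-- left multiplication by a semisimple matrix is semisimple -/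
theorem left_semisimple (S : Mat K) (hS : Module.End.IsSemisimple (Matrix.toLin' S)) :
    Module.End.IsSemisimple (LinearMap.mulLeft K S) := by
  have h0 : aeval S (minpoly K (Matrix.toLin' S)) = 0 := by
    apply (Matrix.toLinAlgEquiv' (R := K) (n := Fin 6)).injective
    rw [map_zero, ← AlgEquiv.coe_toAlgHom, ← aeval_algHom_apply]
    exact minpoly.aeval K (Matrix.toLin' S)
  refine Module.End.isSemisimple_of_squarefree_aeval_eq_zero hS.minpoly_squarefree ?_
  have h1 : LinearMap.mulLeft K S = Algebra.lmul K (Mat K) S := rfl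
  rw [h1, aeval_algHom_apply, h0, map_zero]

/-- right multiplication by a symmetric semisimple matrix is semisimple -/
theorem right_semisimple (S : Mat K) (hs : S.transpose = S)
    (hS : Module.End.IsSemisimple (Matrix.toLin' S)) :
    Module.End.IsSemisimple (LinearMap.mulRight K S) := by
  refine semisimple_of_intertwine (Matrix.transposeLinearEquiv (Fin 6) (Fin 6) K K).toLinearMap
    (Matrix.transposeLinearEquiv (Fin 6) (Fin 6) K K).injective _ (LinearMap.mulLeft K S) ?_
    (left_semisimple K S hS)
  intro x
  simp [hs]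

variable [CharP K 2]

theorem sym_transpose (A : Sym K) : A.1.transpose = A.1 := by
  ext i j
  exact A.2 j i

theorem rho_semisimple [PerfectField K] (S : Sym K)
    (hS : Module.End.IsSemisimple (Matrix.toLin' S.1)) : Module.End.IsSemisimple (rho K S) := by
  have hc : Commute (LinearMap.mulLeft K S.1) (LinearMap.mulRight K S.1) :=
    LinearMap.commute_mulLeft_right _ _
  refine semisimple_of_intertwine (Alt K).toSubmodule.subtype Subtype.val_injective _
    (LinearMap.mulLeft K S.1 - LinearMap.mulRight K S.1) ?_
    (Module.End.IsSemisimple.sub_of_commute hc (left_semisimple K S.1 hS)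
      (right_semisimple K S.1 (sym_transpose K S) hS))
  intro x
  rfl

theorem rho_nilpotent (N : Sym K) (hN : IsNilpotent N.1) : IsNilpotent (rho K N) := by
  have hc : Commute (LinearMap.mulLeft K N.1) (LinearMap.mulRight K N.1) :=
    LinearMap.commute_mulLeft_right _ _
  have h1 : IsNilpotent (LinearMap.mulLeft K N.1) := (LinearMap.isNilpotent_mulLeft_iff K N.1).2 hN
  have h2 : IsNilpotent (LinearMap.mulRight K N.1) :=
    (LinearMap.isNilpotent_mulRight_iff K N.1).2 hN
  obtain ⟨k, hk⟩ := hc.isNilpotent_sub h1 h2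
  refine ⟨k, ?_⟩
  ext x : 1
  apply Subtype.val_injective
  have := aeval_intertwine (Alt K).toSubmodule.subtype (rho K N)
    (LinearMap.mulLeft K N.1 - LinearMap.mulRight K N.1) (fun x => rfl) (X ^ k) x
  simpa [hk] using this

/-- **Piece ADS.** -/
theorem ads (hKER : StmKER K) : StmADS K := by
  intro hK A hA
  have hperf : PerfectField K := inferInstance
  obtain ⟨n, hn, s, hs, hnil, hss, hsum⟩ :=
    Module.End.exists_isNilpotent_isSemisimple (f := Matrix.toLin' A.1) (K := K)
  rw [Algebra.adjoin_singleton_eq_range_aeval] at hn hs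
  obtain ⟨p, rfl⟩ := hn
  obtain ⟨q, rfl⟩ := hs
  have hev : ∀ r : K[X], Matrix.toLin' (aeval A.1 r) = aeval (Matrix.toLin' A.1) r := by
    intro r
    exact (aeval_algHom_apply (Matrix.toLinAlgEquiv' (R := K) (n := Fin 6)).toAlgHom A.1 r).symm
  have hsym : ∀ r : K[X], aeval A.1 r ∈ Pool.Agent.W2helper84.TN.Sym K := by
    intro r i j
    have : (aeval A.1 r).transpose = aeval A.1 r := by
      rw [aeval_eq_sum_range, Matrix.transpose_sum]
      refine Finset.sum_congr rfl fun k _ => ?_
      rw [Matrix.transpose_smul, Matrix.transpose_pow, sym_transpose]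
    exact congrFun (congrFun this j) i
  let N : Pool.Agent.W2helper84.TN.Sym K := ⟨aeval A.1 p, hsym p⟩
  let S : Pool.Agent.W2helper84.TN.Sym K := ⟨aeval A.1 q, hsym q⟩
  have hAS : A = N + S := by
    apply Subtype.ext
    apply (Matrix.toLin' (R := K) (m := Fin 6) (n := Fin 6)).injective
    change Matrix.toLin' A.1 = Matrix.toLin' (aeval A.1 p + aeval A.1 q)
    rw [map_add, hev, hev]
    exact hsum
  have hNnil : IsNilpotent N.1 := by
    obtain ⟨k, hk⟩ := hnil
    refine ⟨k, ?_⟩
    apply (Matrix.toLinAlgEquiv' (R := K) (n := Fin 6)).injective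
    rw [map_pow, map_zero]
    change (Matrix.toLin' (aeval A.1 p)) ^ k = 0
    rw [hev]
    exact hk
  have hSss : Module.End.IsSemisimple (Matrix.toLin' S.1) := by
    change Module.End.IsSemisimple (Matrix.toLin' (aeval A.1 q))
    rw [hev]
    exact hss
  have hcom : A.1 * S.1 = S.1 * A.1 := by
    have : Commute (aeval A.1 (X : K[X])) (aeval A.1 q) := (Commute.all (X : K[X]) q).map (aeval A.1)
    rw [aeval_X] at this
    exact this
  have hrc : Commute (rho K A) (rho K S) := by
    ext x : 1
    apply Subtype.val_injective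
    change A.1 * (S.1 * x.1 - x.1 * S.1) - (S.1 * x.1 - x.1 * S.1) * A.1 =
      S.1 * (A.1 * x.1 - x.1 * A.1) - (A.1 * x.1 - x.1 * A.1) * S.1
    have e1 : A.1 * (S.1 * x.1) = S.1 * (A.1 * x.1) := by
      rw [← mul_assoc, hcom, mul_assoc]
    have e2 : x.1 * S.1 * A.1 = x.1 * A.1 * S.1 := by
      rw [mul_assoc, ← hcom, mul_assoc]
    rw [mul_sub, mul_sub, sub_mul, sub_mul, e1, e2, ← mul_assoc A.1, ← mul_assoc S.1 x.1,
      mul_assoc A.1, mul_assoc S.1 x.1]
    simp only [mul_assoc]
    abel
  have hrN : rho K N = rho K A - rho K S := by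
    rw [hAS, map_add, add_sub_cancel_right]
  have h0 : rho K N = 0 := by
    refine Module.End.eq_zero_of_isNilpotent_isSemisimple (rho_nilpotent K N hNnil) ?_
    rw [hrN]
    exact Module.End.IsSemisimple.sub_of_commute hrc hA (rho_semisimple K S hSss)
  obtain ⟨c, hc⟩ := hKER N h0
  have hN0 : N = 0 := by
    apply Subtype.ext
    change N.1 = 0
    rw [hc] at hNnil ⊢
    obtain ⟨k, hk⟩ := hNnil
    rw [_root_.smul_pow, one_pow] at hk
    have : c ^ k = 0 := by
      have := congrFun (congrFun hk 0) 0
      simpa using this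
    rw [eq_zero_of_pow_eq_zero this, zero_smul]
  rw [hAS, hN0, zero_add]
  exact hSss

end Pool.Agent.W2helper28.TN
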